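import Pool.Agent.K7.H49.ML.Stm2
import Pool.Agent.Y959.Gen.Info

set_option autoImplicit false

/-!
# Project ML, job COUNT: cycles of integer vectors weighted by their rank

Adapted from `Pool.Agent.Y959.Gen.path_sum` (starting files).
-/

open Finset Module

namespace Pool.Agent.K7.H77.MLCOUNT

open Pool.Agent.K7.H49.ML Pool.Agent.Y959.Gen

variable {d : ℕ}

/-- The vector with rational coordinates. -/
def v (a : Fin d → ℤ) : Fin d → ℚ := fun i => (a i : ℚ)

/-- A coset of a space of dimension `≤ s` contains few vectors of `A`. -/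
theorem card_coset (s B : ℕ) (A : Finset (Fin d → ℤ)) (hA : ∀ a ∈ A, ∀ b ∈ A, ∀ i, |a i - b i| ≤ B)
    (V : Submodule ℚ (Fin d → ℚ)) (hV : finrank ℚ V ≤ s) (c : Fin d → ℚ)
    (S : Finset A) (hS : ∀ n ∈ S, v (n : Fin d → ℤ) - c ∈ V) :
    S.card ≤ (2 * B + 1) ^ s := by
  classical
  rcases S.eq_empty_or_nonempty with rfl | ⟨a₀, ha₀⟩
  · simp
  obtain ⟨J, hJ, hJ2⟩ := info_set s V hV
  have hcard := card_le_card_of_injOn (s := S)
    (t := Fintype.piFinset (fun p : J => Icc ((a₀ : Fin d → ℤ) p - B) ((a₀ : Fin d → ℤ) p + B)))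
    (fun (n : A) => fun p : J => (n : Fin d → ℤ) p)
    (by
      intro n _
      rw [mem_coe, Fintype.mem_piFinset]
      intro p
      rw [mem_Icc]
      have := abs_le.1 (hA n n.2 a₀ a₀.2 p)
      constructor <;> linarith [this.1, this.2])
    (by
      intro n hn n' hn' heq
      have h1 : v (n : Fin d → ℤ) - v (n' : Fin d → ℤ) = 0 := by
        apply hJ2
        · have := V.sub_mem (hS n hn) (hS n' hn')
          simpa using this
        · intro p hp
          have := congrFun heq ⟨p, hp⟩
          simp only at this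
          simp only [Pi.sub_apply, v]
          rw [this, sub_self]
      apply Subtype.ext
      funext i
      have h2 := congrFun h1 i
      simp only [Pi.sub_apply, v, Pi.zero_apply, sub_eq_zero] at h2
      exact_mod_cast h2)
  rw [Fintype.card_piFinset] at hcard
  have hc : ∀ p : J, (Icc ((a₀ : Fin d → ℤ) p - B) ((a₀ : Fin d → ℤ) p + B)).card = 2 * B + 1 := by
    intro p
    rw [Int.card_Icc]
    omega
  rw [prod_congr rfl (fun p _ => hc p), prod_const, card_univ, Fintype.card_coe] at hcard
  exact hcard.trans (Nat.pow_le_pow_right (by omega) hJ)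

/-- The span of the differences. -/
noncomputable def Sp {m : ℕ} (a : Fin (m + 1) → Fin d → ℤ) : Submodule ℚ (Fin d → ℚ) :=
  Submodule.span ℚ (Set.range (dif a))

theorem rk_eq {m : ℕ} (a : Fin (m + 1) → Fin d → ℤ) : rk a = finrank ℚ (Sp a) := rfl

theorem dif_eq {m : ℕ} (a : Fin (m + 1) → Fin d → ℤ) (j : Fin m) :
    dif a j = v (a j.succ) - v (a j.castSucc) := rfl

theorem finrank_Sp_le {m : ℕ} (a : Fin (m + 1) → Fin d → ℤ) : finrank ℚ (Sp a) ≤ m := by
  have h : finrank ℚ (Submodule.span ℚ (Set.range (dif a))) ≤ Fintype.card (Fin m) :=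
    finrank_range_le_card (dif a)
  rwa [Fintype.card_fin] at h

theorem Sp_snoc {m : ℕ} (n : Fin (m + 1) → Fin d → ℤ) (x : Fin d → ℤ) :
    Sp (Fin.snoc n x : Fin (m + 2) → Fin d → ℤ) =
      Submodule.span ℚ {v x - v (n (Fin.last m))} ⊔ Sp n := by
  unfold Sp
  rw [← Submodule.span_insert]
  congr 1
  ext y
  simp only [Set.mem_range, Set.mem_insert_iff]
  constructor
  · rintro ⟨j, rfl⟩
    refine Fin.lastCases ?_ ?_ j
    · left
      rw [dif_eq]
      simp only [Fin.succ_last, Fin.snoc_last, Fin.snoc_castSucc]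
    · intro j
      right
      refine ⟨j, ?_⟩
      rw [dif_eq, dif_eq]
      have e1 : (Fin.snoc n x : Fin (m + 2) → Fin d → ℤ) (j.castSucc).succ = n j.succ := by
        rw [Fin.succ_castSucc]
        exact Fin.snoc_castSucc (α := fun _ => Fin d → ℤ) x n j.succ
      have e2 : (Fin.snoc n x : Fin (m + 2) → Fin d → ℤ) (j.castSucc).castSucc = n j.castSucc :=
        Fin.snoc_castSucc (α := fun _ => Fin d → ℤ) x n j.castSucc
      rw [e1, e2]
  · rintro (rfl | ⟨j, rfl⟩)
    · refine ⟨Fin.last m, ?_⟩
      rw [dif_eq]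
      simp only [Fin.succ_last, Fin.snoc_last, Fin.snoc_castSucc]
    · refine ⟨j.castSucc, ?_⟩
      rw [dif_eq, dif_eq]
      have e1 : (Fin.snoc n x : Fin (m + 2) → Fin d → ℤ) (j.castSucc).succ = n j.succ := by
        rw [Fin.succ_castSucc]
        exact Fin.snoc_castSucc (α := fun _ => Fin d → ℤ) x n j.succ
      have e2 : (Fin.snoc n x : Fin (m + 2) → Fin d → ℤ) (j.castSucc).castSucc = n j.castSucc :=
        Fin.snoc_castSucc (α := fun _ => Fin d → ℤ) x n j.castSucc
      rw [e1, e2]

/-- The weighted number of paths. -/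
theorem path_sum (B : ℕ) (A : Finset (Fin d → ℤ)) (hA : ∀ a ∈ A, ∀ b ∈ A, ∀ i, |a i - b i| ≤ B)
    (R : ℕ) (hR : 1 ≤ R) (m : ℕ) :
    ∑ n : Fin (m + 1) → A, R ^ (m - finrank ℚ (Sp (fun j => (n j : Fin d → ℤ)))) ≤
      A.card * ∏ j ∈ range m, (A.card + R * (2 * B + 1) ^ j) := by
  classical
  induction m with
  | zero =>
    simp
  | succ m ih =>
    have hsplit : ∑ n : Fin (m + 2) → A, R ^ (m + 1 - finrank ℚ (Sp (fun j => (n j : Fin d → ℤ)))) =
        ∑ n : Fin (m + 1) → A, ∑ x : A,
          R ^ (m + 1 - finrank ℚ (Sp (Fin.snoc (fun j => (n j : Fin d → ℤ)) (x : Fin d → ℤ) :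
            Fin (m + 2) → Fin d → ℤ))) := by
      rw [← Fintype.sum_equiv (Fin.snocEquiv (fun _ : Fin (m + 2) => (A : Type)))
        (fun q => R ^ (m + 1 - finrank ℚ (Sp (Fin.snoc (fun j => (q.2 j : Fin d → ℤ))
          (q.1 : Fin d → ℤ) : Fin (m + 2) → Fin d → ℤ)))) _ (by
            intro q
            have e : (Fin.snoc (fun j => (q.2 j : Fin d → ℤ)) (q.1 : Fin d → ℤ) :
                Fin (m + 2) → Fin d → ℤ) =
                fun j => ((Fin.snocEquiv (fun _ : Fin (m + 2) => (A : Type)) q j : A) :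
                  Fin d → ℤ) := by
              funext j
              refine Fin.lastCases ?_ ?_ j
              · simp [Fin.snocEquiv]
              · intro j
                simp [Fin.snocEquiv]
            rw [e])]
      rw [Fintype.sum_prod_type, sum_comm]
    rw [hsplit]
    have hone : ∀ n : Fin (m + 1) → A, ∑ x : A,
          R ^ (m + 1 - finrank ℚ (Sp (Fin.snoc (fun j => (n j : Fin d → ℤ)) (x : Fin d → ℤ) :
            Fin (m + 2) → Fin d → ℤ))) ≤
        R ^ (m - finrank ℚ (Sp (fun j => (n j : Fin d → ℤ)))) *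
          (A.card + R * (2 * B + 1) ^ m) := by
      intro n
      set n' : Fin (m + 1) → Fin d → ℤ := fun j => (n j : Fin d → ℤ) with hn'
      set s := finrank ℚ (Sp n') with hs
      have hsm : s ≤ m := finrank_Sp_le n'
      set S : Finset A := univ.filter
        (fun x : A => v (x : Fin d → ℤ) - v (n' (Fin.last m)) ∈ Sp n') with hS
      have hScard : S.card ≤ (2 * B + 1) ^ m := by
        apply card_coset m B A hA (Sp n') hsm (v (n' (Fin.last m))) S
        intro x hx
        rw [hS, mem_filter] at hx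
        exact hx.2
      have hle : ∀ x : A,
          R ^ (m + 1 - finrank ℚ (Sp (Fin.snoc n' (x : Fin d → ℤ) : Fin (m + 2) → Fin d → ℤ))) ≤
          (if x ∈ S then R * R ^ (m - s) else 0) + R ^ (m - s) := by
        intro x
        by_cases hx : x ∈ S
        · rw [if_pos hx]
          have hx2 : v (x : Fin d → ℤ) - v (n' (Fin.last m)) ∈ Sp n' := by
            rw [hS, mem_filter] at hx
            exact hx.2
          have hSp : Sp (Fin.snoc n' (x : Fin d → ℤ) : Fin (m + 2) → Fin d → ℤ) = Sp n' := by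
            rw [Sp_snoc, sup_eq_right, Submodule.span_singleton_le_iff_mem]
            exact hx2
          rw [hSp, ← hs, ← pow_succ', show m - s + 1 = m + 1 - s by omega]
          exact Nat.le_add_right _ _
        · rw [if_neg hx, zero_add]
          apply Nat.pow_le_pow_right hR
          have hx2 : v (x : Fin d → ℤ) - v (n' (Fin.last m)) ∉ Sp n' := by
            intro h
            apply hx
            rw [hS, mem_filter]
            exact ⟨mem_univ _, h⟩
          have hlt : Sp n' < Sp (Fin.snoc n' (x : Fin d → ℤ) : Fin (m + 2) → Fin d → ℤ) := by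
            rw [Sp_snoc]
            refine lt_of_le_of_ne le_sup_right ?_
            intro heq
            apply hx2
            rw [heq]
            exact Submodule.mem_sup_left (Submodule.mem_span_singleton_self _)
          have := Submodule.finrank_lt_finrank_of_lt hlt
          omega
      calc ∑ x : A, R ^ (m + 1 - finrank ℚ (Sp (Fin.snoc n' (x : Fin d → ℤ) :
            Fin (m + 2) → Fin d → ℤ)))
          ≤ ∑ x : A, ((if x ∈ S then R * R ^ (m - s) else 0) + R ^ (m - s)) :=
            sum_le_sum fun x _ => hle x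
        _ = S.card * (R * R ^ (m - s)) + A.card * R ^ (m - s) := by
            rw [sum_add_distrib, sum_ite_mem, univ_inter, sum_const, sum_const, smul_eq_mul,
              smul_eq_mul, card_univ, Fintype.card_coe]
        _ ≤ (2 * B + 1) ^ m * (R * R ^ (m - s)) + A.card * R ^ (m - s) := by
            gcongr
        _ = R ^ (m - s) * (A.card + R * (2 * B + 1) ^ m) := by ring
    calc ∑ n : Fin (m + 1) → A, ∑ x : A,
          R ^ (m + 1 - finrank ℚ (Sp (Fin.snoc (fun j => (n j : Fin d → ℤ)) (x : Fin d → ℤ) :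
            Fin (m + 2) → Fin d → ℤ)))
        ≤ ∑ n : Fin (m + 1) → A, R ^ (m - finrank ℚ (Sp (fun j => (n j : Fin d → ℤ)))) *
            (A.card + R * (2 * B + 1) ^ m) := sum_le_sum fun n _ => hone n
      _ = (∑ n : Fin (m + 1) → A, R ^ (m - finrank ℚ (Sp (fun j => (n j : Fin d → ℤ))))) *
            (A.card + R * (2 * B + 1) ^ m) := by rw [sum_mul]
      _ ≤ (A.card * ∏ j ∈ range m, (A.card + R * (2 * B + 1) ^ j)) *
            (A.card + R * (2 * B + 1) ^ m) := Nat.mul_le_mul_right _ ih
      _ = _ := by rw [prod_range_succ, mul_assoc]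

/-- JOB COUNT -/
theorem stCount : StCount := by
  intro d B A hA R hR m
  have h1 : ∀ a : Fin (m + 1) → A, R ^ (m + 1 - rk (fun j => (a j : Fin d → ℤ))) =
      R * R ^ (m - finrank ℚ (Sp (fun j => (a j : Fin d → ℤ)))) := by
    intro a
    rw [rk_eq, ← pow_succ']
    congr 1
    have := finrank_Sp_le (fun j => (a j : Fin d → ℤ))
    omega
  rw [sum_congr rfl (fun a _ => h1 a), ← mul_sum]
  calc R * ∑ a : Fin (m + 1) → A, R ^ (m - finrank ℚ (Sp (fun j => (a j : Fin d → ℤ))))
      ≤ R * (A.card * ∏ j ∈ range m, (A.card + R * (2 * B + 1) ^ j)) :=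
        Nat.mul_le_mul_left _ (path_sum B A hA R hR m)
    _ ≤ R * (A.card * ∏ _j ∈ range m, (A.card + R * (2 * B + 1) ^ m)) := by
        gcongr with j hj
        · omega
        · exact (mem_range.1 hj).le
    _ = A.card * R * (A.card + R * (2 * B + 1) ^ m) ^ m := by
        rw [prod_const, card_range]
        ring

end Pool.Agent.K7.H77.MLCOUNT
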