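import Pool.Agent.K7.H49.ML.Stm3

set_option autoImplicit false

/-!
# Separated points and the periodic kernel
-/

open Finset

namespace Pool.Agent.K7.H77.MLSEPH

open Pool.Agent.K7.H49.ML

theorem seph : StKer → StSepK → StSepH := by
  intro hker hsep ι S r z L V σ K hL hσ hK hKσ hS hz
  have hLr : (0 : ℝ) < L := by exact_mod_cast hL
  have hpi : 0 < Real.pi := Real.pi_pos
  obtain ⟨Λ, hΛ⟩ : ∃ Λ : ℝ, Λ = 2 * L / Real.pi := ⟨_, rfl⟩
  have hΛ0 : 0 < Λ := by rw [hΛ]; positivity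
  have e1 : 2 / (Λ * σ) = Real.pi / (L * σ) := by
    rw [hΛ]
    field_simp
  obtain ⟨W, hW⟩ : ∃ W : Finset (Fin r → ℤ),
      W = Fintype.piFinset (fun _ : Fin r => Finset.Icc (-(V : ℤ)) V) := ⟨_, rfl⟩
  have hWc : (W.card : ℝ) = (2 * (V : ℝ) + 1) ^ r := by
    rw [hW, Fintype.card_piFinset, prod_const, card_univ, Fintype.card_fin, Int.card_Icc]
    have : ((V : ℤ) + 1 - -(V : ℤ)).toNat = 2 * V + 1 := by omega
    rw [this]
    push_cast
    rfl
  have h1 : ∀ p ∈ S, ∏ l, h L (z p l) ≤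
      ∑ v ∈ W, ∏ l, g Λ (z p l - 2 * Real.pi * v l) := by
    intro p hp
    rw [hW, ← Finset.prod_univ_sum (fun _ : Fin r => Finset.Icc (-(V : ℤ)) V)
      (fun l v => g Λ (z p l - 2 * Real.pi * v))]
    refine prod_le_prod (fun l _ => ?_) (fun l _ => ?_)
    · unfold h
      positivity
    · rw [hΛ]
      exact hker L V _ hL (hz p hp l)
  have h2 : ∀ v ∈ W, ∑ p ∈ S, ∏ l, g Λ (z p l - 2 * Real.pi * v l) ≤
      (2 * (1 + Real.pi / (L * σ) * (1 + Real.log K))) ^ r := by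
    intro v hv
    rw [← e1]
    refine hsep ι S r (fun p l => z p l - 2 * Real.pi * v l) Λ σ K hΛ0 hσ hK ?_ ?_
    · intro p hp q hq hpq
      obtain ⟨l, hl⟩ := hS p hp q hq hpq
      refine ⟨l, hl.trans (le_of_eq ?_)⟩
      congr 1
      ring
    · intro p hp l
      have h3 := hz p hp l
      have h4 : v l ∈ Finset.Icc (-(V : ℤ)) V := by
        rw [hW, Fintype.mem_piFinset] at hv
        exact hv l
      rw [Finset.mem_Icc] at h4
      have h5 : |(v l : ℝ)| ≤ V := by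
        rw [abs_le]
        constructor
        · exact_mod_cast h4.1
        · exact_mod_cast h4.2
      have h6 : |2 * Real.pi * (v l : ℝ)| ≤ 2 * Real.pi * V := by
        rw [abs_mul, abs_of_pos (by positivity : 0 < 2 * Real.pi)]
        exact mul_le_mul_of_nonneg_left h5 (by positivity)
      calc |z p l - 2 * Real.pi * v l| ≤ |z p l| + |2 * Real.pi * (v l : ℝ)| := abs_sub _ _
        _ ≤ 2 * Real.pi * V + 2 * Real.pi * V := add_le_add h3 h6
        _ = 4 * Real.pi * V := by ring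
        _ ≤ K * σ := hKσ
  calc ∑ p ∈ S, ∏ l, h L (z p l)
      ≤ ∑ p ∈ S, ∑ v ∈ W, ∏ l, g Λ (z p l - 2 * Real.pi * v l) := sum_le_sum h1
    _ = ∑ v ∈ W, ∑ p ∈ S, ∏ l, g Λ (z p l - 2 * Real.pi * v l) := sum_comm
    _ ≤ ∑ v ∈ W, (2 * (1 + Real.pi / (L * σ) * (1 + Real.log K))) ^ r := sum_le_sum h2
    _ = ((2 * V + 1) * (2 * (1 + Real.pi / (L * σ) * (1 + Real.log K)))) ^ r := by
        rw [sum_const, nsmul_eq_mul, hWc, mul_pow (2 * (V : ℝ) + 1)]

end Pool.Agent.K7.H77.MLSEPH
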