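import Mathlib
import Pool.Agent.K7.H47.DM.Stm4

set_option autoImplicit false

open Finset

namespace Pool.Agent.K7.H77.D4P

noncomputable def M {n : ℕ} (t j : Fin n → ℕ) : ℚ :=
  (Matrix.of fun c r => (((t r).choose (j c) : ℕ) : ℚ)).det

theorem M_zero {n : ℕ} (t j : Fin n → ℕ) (h : ¬ Function.Injective j) : M t j = 0 := by
  unfold M
  simp only [Function.Injective, not_forall] at h
  obtain ⟨a, b, hab, hne⟩ := h
  apply Matrix.det_zero_of_row_eq hne
  funext r
  simp [Matrix.of_apply, hab]

theorem mono_le {n : ℕ} (j : Fin n → ℕ) (hj : StrictMono j) : ∀ c : Fin n, (c : ℕ) ≤ j c := by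
  intro c
  obtain ⟨c, hc⟩ := c
  induction c with
  | zero => simp
  | succ c ih =>
    have h1 := ih (by omega)
    have h2 : j ⟨c, by omega⟩ < j ⟨c+1, hc⟩ := hj (by simp [Fin.lt_def])
    simp only at h1 ⊢
    omega

theorem mono_le' {n : ℕ} (t : Fin (n+1) → ℕ) (ht : StrictMono t) : ∀ c : Fin (n+1), (c : ℕ) + t 0 ≤ t c := by
  intro c
  obtain ⟨c, hc⟩ := c
  induction c with
  | zero => simp
  | succ c ih =>
    have h1 := ih (by omega)
    have h2 : t ⟨c, by omega⟩ < t ⟨c+1, hc⟩ := ht (by simp [Fin.lt_def])
    simp only at h1 ⊢
    omega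

theorem step {n : ℕ} (t' j : Fin n → ℕ) :
    M (fun r => t' r + 1) j = ∑ s : Finset (Fin n),
      (Matrix.of fun c r => if c ∈ s then (((t' r).choose (j c) : ℕ) : ℚ)
        else if j c = 0 then 0 else (((t' r).choose (j c - 1) : ℕ) : ℚ)).det := by
  have h := (Matrix.detRowAlternating (R := ℚ) (n := Fin n)).toMultilinearMap.map_add_univ
    (fun c r => (((t' r).choose (j c) : ℕ) : ℚ))
    (fun c r => if j c = 0 then 0 else (((t' r).choose (j c - 1) : ℕ) : ℚ))
  have h1 : M (fun r => t' r + 1) j = (Matrix.detRowAlternating (R := ℚ) (n := Fin n)).toMultilinearMap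
      ((fun c r => (((t' r).choose (j c) : ℕ) : ℚ)) +
      (fun c r => if j c = 0 then 0 else (((t' r).choose (j c - 1) : ℕ) : ℚ))) := by
    show Matrix.det _ = Matrix.det _
    congr 1
    funext c r
    simp only [Matrix.of_apply, Pi.add_apply]
    by_cases h0 : j c = 0
    · simp [h0]
    · obtain ⟨m, hm⟩ := Nat.exists_eq_succ_of_ne_zero h0
      rw [hm, Nat.succ_eq_add_one, Nat.choose_succ_succ]
      simp
      ring
  rw [h1, h]
  apply Finset.sum_congr rfl
  intro s _
  show Matrix.det _ = Matrix.det _
  congr 1
  funext c r
  simp only [Matrix.of_apply, Finset.piecewise]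
  split_ifs <;> rfl

theorem main : ∀ (n : ℕ) (k : ℕ) (t j : Fin n → ℕ), (∀ h : 0 < n, t ⟨0, h⟩ = k) → StrictMono t → Monotone j →
    0 ≤ M t j ∧ (StrictMono j → (∀ c, j c ≤ t c) → 0 < M t j) := by
  intro n
  induction n with
  | zero => intro k t j _ _ _; simp [M]
  | succ n ihn =>
    intro k
    induction k with
    | zero =>
      intro t j h0 ht hj
      have h0 : t 0 = 0 := h0 (by omega)
      by_cases hinj : Function.Injective j
      swap
      · rw [M_zero t j hinj]
        exact ⟨le_refl _, fun h => absurd h.injective hinj⟩
      have hs : StrictMono j := hj.strictMono_of_injective hinj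
      have hexp : M t j = (((0:ℕ).choose (j 0) : ℕ) : ℚ) * M (t ∘ Fin.succ) (j ∘ Fin.succ) := by
        unfold M
        rw [Matrix.det_succ_column_zero, Finset.sum_eq_single (0 : Fin (n+1))]
        · simp only [Fin.val_zero, pow_zero, one_mul, Matrix.of_apply, h0]
          congr 1
        · intro b _ hb
          have : j b ≠ 0 := by
            have := hs (Fin.pos_of_ne_zero hb)
            omega
          obtain ⟨m, hm⟩ := Nat.exists_eq_succ_of_ne_zero this
          simp [Matrix.of_apply, h0, hm]
        · simp
      have ih := ihn (if h : 0 < n then (t ∘ Fin.succ) ⟨0, h⟩ else 0) (t ∘ Fin.succ) (j ∘ Fin.succ)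
        (fun h => by simp [h]) (ht.comp (Fin.strictMono_succ)) (hj.comp (Fin.strictMono_succ).monotone)
      rw [hexp]
      refine ⟨mul_nonneg (by positivity) ih.1, fun _ hle => ?_⟩
      have hj0 : j 0 = 0 := by
        have := hle 0
        omega
      rw [hj0]
      simp only [Nat.choose_self, Nat.cast_one, one_mul]
      exact ih.2 (hs.comp Fin.strictMono_succ) (fun c => hle _)
    | succ k ihk =>
      intro t j h0 ht hj
      have h0 : t 0 = k + 1 := h0 (by omega)
      by_cases hinj : Function.Injective j
      swap
      · rw [M_zero t j hinj]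
        exact ⟨le_refl _, fun h => absurd h.injective hinj⟩
      have hs : StrictMono j := hj.strictMono_of_injective hinj
      have hlow := mono_le' t ht
      have htt : t = fun r => (t r - 1) + 1 := by
        funext r
        have := hlow r
        omega
      have ht' : StrictMono (fun r => t r - 1) := by
        intro a b hab
        have h1 := ht hab
        have h2 := hlow a
        simp only
        omega
      have hexp := step (fun r => t r - 1) j
      rw [← htt] at hexp
      have hterm : ∀ s : Finset (Fin (n+1)), (∀ c, c ∉ s → j c ≠ 0) →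
          (Matrix.of fun c r => if c ∈ s then (((t r - 1).choose (j c) : ℕ) : ℚ)
            else if j c = 0 then 0 else (((t r - 1).choose (j c - 1) : ℕ) : ℚ)).det =
          M (fun r => t r - 1) (fun c => if c ∈ s then j c else j c - 1) := by
        intro s hs'
        unfold M
        congr 1
        funext c r
        simp only [Matrix.of_apply]
        by_cases hc : c ∈ s
        · simp [hc]
        · simp [hc, hs' c hc]
      have hnn : ∀ s : Finset (Fin (n+1)), 0 ≤
          (Matrix.of fun c r => if c ∈ s then (((t r - 1).choose (j c) : ℕ) : ℚ)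
            else if j c = 0 then 0 else (((t r - 1).choose (j c - 1) : ℕ) : ℚ)).det := by
        intro s
        by_cases hz : ∀ c, c ∉ s → j c ≠ 0
        · rw [hterm s hz]
          refine (ihk _ _ (fun _ => ?_) ht' ?_).1
          · show t 0 - 1 = k
            omega
          · intro a b hab
            rcases eq_or_lt_of_le hab with rfl | hlt
            · exact le_refl _
            · have := hs hlt
              simp only
              split_ifs <;> omega
        · push Not at hz
          obtain ⟨c, hc, hc0⟩ := hz
          rw [Matrix.det_eq_zero_of_row_eq_zero c]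
          intro r
          simp [hc, hc0]
      rw [hexp]
      refine ⟨Finset.sum_nonneg fun s _ => hnn s, fun _ hle => ?_⟩
      refine Finset.sum_pos' (fun s _ => hnn s) ⟨Finset.univ.filter (fun c => j c = (c : ℕ)), Finset.mem_univ _, ?_⟩
      have hml := mono_le j hs
      rw [hterm]
      · refine (ihk _ _ (fun _ => ?_) ht' ?_).2 ?_ ?_
        · show t 0 - 1 = k
          omega
        · intro a b hab
          rcases eq_or_lt_of_le hab with rfl | hlt
          · exact le_refl _
          · have := hs hlt
            simp only
            split_ifs <;> omega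
        · intro a b hlt
          have h1 := hs hlt
          have h2 := hml a
          have h3 := hml b
          have h4 : (a : ℕ) < b := hlt
          simp only [Finset.mem_filter, Finset.mem_univ, true_and]
          split_ifs <;> omega
        · intro c
          have h1 := hlow c
          have h2 := hle c
          have h3 := hml c
          simp only [Finset.mem_filter, Finset.mem_univ, true_and]
          split_ifs <;> omega
      · intro c hc
        have h3 := hml c
        simp only [Finset.mem_filter, Finset.mem_univ, true_and] at hc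
        omega

theorem sorted (ι : Type) [Fintype ι] (t : ι → ℕ) (ht : Function.Injective t) :
    ∃ e : Fin (Fintype.card ι) ≃ ι, StrictMono (t ∘ e) := by
  classical
  let e0 : Fin (Fintype.card ι) ≃ ι := (Fintype.equivFin ι).symm
  refine ⟨(Tuple.sort (t ∘ e0)).trans e0, ?_⟩
  have h := Tuple.monotone_sort (t ∘ e0)
  refine Monotone.strictMono_of_injective ?_ ?_
  · exact h
  · exact ht.comp (Equiv.injective _)

theorem p : H47.DM4.StP := by
  intro ι _ _ t j ht hj hle
  obtain ⟨et, het⟩ := sorted ι t ht
  obtain ⟨ej, hej⟩ := sorted ι j hj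
  have hcmp : ∀ i, (j ∘ ej) i ≤ (t ∘ et) i := by
    intro i
    by_contra hcon
    simp only [Function.comp, not_le] at hcon
    have hsub : (Finset.univ.filter (fun a : Fin (Fintype.card ι) => a ≤ i)).map et.toEmbedding ⊆
        (Finset.univ.filter (fun a : Fin (Fintype.card ι) => a < i)).map ej.toEmbedding := by
      intro x hx
      simp only [Finset.mem_map, Finset.mem_filter, Finset.mem_univ, true_and, Equiv.coe_toEmbedding] at hx ⊢
      obtain ⟨a, ha, rfl⟩ := hx
      refine ⟨ej.symm (et a), ?_, by simp⟩
      have h1 : t (et a) ≤ t (et i) := het.monotone ha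
      have h2 := hle (et a)
      have h3 : (j ∘ ej) (ej.symm (et a)) < (j ∘ ej) i := by
        simp only [Function.comp, Equiv.apply_symm_apply]
        omega
      exact hej.lt_iff_lt.mp h3
    have hc := Finset.card_le_card hsub
    rw [Finset.card_map, Finset.card_map] at hc
    have h1 : (Finset.univ.filter (fun a : Fin (Fintype.card ι) => a < i)) ⊂
        (Finset.univ.filter (fun a : Fin (Fintype.card ι) => a ≤ i)) := by
      rw [Finset.ssubset_iff_of_subset]
      · exact ⟨i, by simp, by simp⟩
      · intro x hx
        simp only [Finset.mem_filter, Finset.mem_univ, true_and] at hx ⊢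
        exact hx.le
    have h2 := Finset.card_lt_card h1
    omega
  have hpos := (main (Fintype.card ι) (if h : 0 < Fintype.card ι then (t ∘ et) ⟨0, h⟩ else 0) (t ∘ et) (j ∘ ej)
    (fun h => by simp [h]) het hej.monotone).2 hej hcmp
  have hne : (Matrix.of fun r c => (((t r).choose (j c) : ℕ) : ℚ)).submatrix et ej =
      (Matrix.of fun c r => ((((t ∘ et) r).choose ((j ∘ ej) c) : ℕ) : ℚ)).transpose := by
    funext r c
    simp [Matrix.submatrix, Matrix.transpose]
  have hu : IsUnit ((Matrix.of fun r c => (((t r).choose (j c) : ℕ) : ℚ)).submatrix et ej) := by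
    rw [hne, Matrix.isUnit_iff_isUnit_det, Matrix.det_transpose]
    exact isUnit_iff_ne_zero.mpr hpos.ne'
  rw [Matrix.isUnit_submatrix_equiv, Matrix.isUnit_iff_isUnit_det] at hu
  exact hu.ne_zero

end Pool.Agent.K7.H77.D4P
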