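import Pool.Agent.K7.H47.DM.Stm3

/-!
# Dope matrices: tuples in a real quadratic field
-/

set_option autoImplicit false

open Polynomial

namespace Pool.Agent.K7.H77.DM2

open Pool.Agent.K7.H47.DM

theorem sub_res {m : ℕ} {Λ Λ' : Fin m → ℂ} (f : Fin 3 → Fin m) (n : ℕ) (h : Dn n Λ = Dn n Λ') :
    Dn n (Λ ∘ f) ⊆ Dn n (Λ' ∘ f) := by
  rintro M ⟨P, hP, hM⟩
  have h1 : (fun (i : Fin m) (j : Fin (n + 1)) => (derivative^[(j : ℕ)] P).eval (Λ i) = 0) ∈
      Dn n Λ := ⟨P, hP, fun i j => Iff.rfl⟩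
  rw [h] at h1
  obtain ⟨Q, hQ, hQ2⟩ := h1
  exact ⟨Q, hQ, fun i j => (hM i j).trans (hQ2 (f i) j)⟩

theorem sim_res {m : ℕ} {Λ Λ' : Fin m → ℂ} (h : Sim Λ Λ') (f : Fin 3 → Fin m) :
    Sim (Λ ∘ f) (Λ' ∘ f) :=
  fun n => Set.Subset.antisymm (sub_res f n (h n)) (sub_res f n (h n).symm)

theorem quot {s : ℝ} {D : ℚ} (hs : s ^ 2 = D) (p q u v : ℚ) (h : (u : ℝ) + v * s ≠ 0) :
    ∃ P Q : ℚ, ((p : ℝ) + q * s) / (u + v * s) = P + Q * s := by
  by_cases h0 : u ^ 2 - v ^ 2 * D = 0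
  · have h1 : ((u : ℝ) - v * s) * (u + v * s) = 0 := by
      have h2 : ((u ^ 2 - v ^ 2 * D : ℚ) : ℝ) = 0 := by rw [h0]; simp
      push_cast at h2
      rw [← hs] at h2
      linear_combination h2
    have h2 : (u : ℝ) - v * s = 0 := (mul_eq_zero.1 h1).resolve_right h
    by_cases hv : v = 0
    · exfalso
      apply h
      subst hv
      have h3 : (u : ℝ) = 0 := by simpa using h2
      rw [h3]
      simp
    · have hv' : (v : ℝ) ≠ 0 := by exact_mod_cast hv
      have h3 : s = ((u / v : ℚ) : ℝ) := by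
        push_cast
        field_simp
        linear_combination -h2
      refine ⟨(p + q * (u / v)) / (u + v * (u / v)), 0, ?_⟩
      rw [h3]
      push_cast
      ring
  · have h1 : ((u : ℝ) ^ 2 - v ^ 2 * D) ≠ 0 := by exact_mod_cast h0
    refine ⟨(p * u - q * v * D) / (u ^ 2 - v ^ 2 * D), (q * u - p * v) / (u ^ 2 - v ^ 2 * D), ?_⟩
    push_cast
    rw [div_eq_iff h]
    have e : ((p : ℝ) * u - q * v * D) / (u ^ 2 - v ^ 2 * D) +
        (q * u - p * v) / (u ^ 2 - v ^ 2 * D) * s =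
        ((p * u - q * v * D) + (q * u - p * v) * s) / (u ^ 2 - v ^ 2 * D) := by ring
    rw [e, div_mul_eq_mul_div, eq_div_iff h1, ← hs]
    ring

theorem exists_conj {s : ℝ} {D : ℚ} (hs : s ^ 2 = D) (hirr : ∀ r : ℚ, s ≠ r) :
    ∃ σ : ℂ ≃+* ℂ, σ (s : ℂ) = -(s : ℂ) := by
  have hD : ∀ b : ℚ, b ^ 2 ≠ D := by
    intro b hb
    have h1 : s ^ 2 = (b : ℝ) ^ 2 := by rw [hs, ← hb]; push_cast; rfl
    rcases sq_eq_sq_iff_eq_or_eq_neg.1 h1 with h2 | h2
    · exact hirr b h2
    · exact hirr (-b) (by rw [h2]; push_cast; rfl)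
  have hirrP : Irreducible (X ^ 2 - C D : ℚ[X]) := X_pow_sub_C_irreducible_of_prime Nat.prime_two hD
  have hmon : (X ^ 2 - C D : ℚ[X]).Monic := monic_X_pow_sub_C D two_ne_zero
  have hsc : (s : ℂ) ^ 2 = (D : ℂ) := by
    have h1 : ((s ^ 2 : ℝ) : ℂ) = ((D : ℝ) : ℂ) := by rw [hs]
    push_cast at h1
    exact h1
  have e1 : aeval (s : ℂ) (X ^ 2 - C D : ℚ[X]) = 0 := by
    simp [hsc]
  have e2 : aeval (-(s : ℂ)) (X ^ 2 - C D : ℚ[X]) = 0 := by
    simp [hsc]
  have m1 := minpoly.eq_of_irreducible_of_monic hirrP e1 hmon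
  have m2 := minpoly.eq_of_irreducible_of_monic hirrP e2 hmon
  exact aut ⟨X ^ 2 - C D, hmon, by rw [← aeval_def]; exact e1⟩ (m1.symm.trans m2)

theorem indep {s : ℝ} (hirr : ∀ r : ℚ, s ≠ r) (a b : ℚ) (h : (a : ℂ) + b * s = 0) :
    a = 0 ∧ b = 0 := by
  have h1 : (a : ℝ) + b * s = 0 := by
    have h2 : (((a : ℝ) + b * s : ℝ) : ℂ) = ((0 : ℝ) : ℂ) := by
      push_cast
      exact h
    exact Complex.ofReal_injective h2
  have hb : b = 0 := by
    by_contra hb
    have hb' : (b : ℝ) ≠ 0 := by exact_mod_cast hb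
    apply hirr (-a / b)
    push_cast
    field_simp
    linarith
  refine ⟨?_, hb⟩
  rw [hb] at h1
  simpa using h1

/-- the theorem for the normalised coordinates -/
theorem norm_case {m : ℕ} {Λ Λ' : Fin m → ℂ} {i0 i1 : Fin m} (h01 : i0 ≠ i1)
    (hΛ : Function.Injective Λ) (hΛ' : Function.Injective Λ') (φ : ℂ ≃+* ℂ)
    (h : ∀ i, φ ((Λ i - Λ i0) / (Λ i1 - Λ i0)) = (Λ' i - Λ' i0) / (Λ' i1 - Λ' i0)) :
    ∃ (a b : ℂ) (φ : ℂ ≃+* ℂ), b ≠ 0 ∧ ∀ i, Λ' i = a + b * φ (Λ i) := by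
  have h1 : Λ i1 - Λ i0 ≠ 0 := sub_ne_zero.2 fun e => h01 (hΛ e).symm
  have h1' : Λ' i1 - Λ' i0 ≠ 0 := sub_ne_zero.2 fun e => h01 (hΛ' e).symm
  have h2 : φ (Λ i1 - Λ i0) ≠ 0 := by
    rw [Ne, map_eq_zero_iff φ φ.injective]
    exact h1
  refine ⟨Λ' i0 - (Λ' i1 - Λ' i0) / φ (Λ i1 - Λ i0) * φ (Λ i0),
    (Λ' i1 - Λ' i0) / φ (Λ i1 - Λ i0), φ, div_ne_zero h1' h2, fun i => ?_⟩
  have h3 := h i
  rw [map_div₀, map_sub φ (Λ i) (Λ i0), eq_div_iff h1'] at h3
  have h4 : Λ' i = Λ' i0 + (φ (Λ i) - φ (Λ i0)) / φ (Λ i1 - Λ i0) * (Λ' i1 - Λ' i0) := by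
    rw [h3]
    ring
  rw [h4]
  ring

theorem tup (h : StTri) : StTup := by
  intro m Λ Λ' hΛ hΛ' hS hR
  rcases Nat.lt_or_ge m 2 with hm | hm
  · refine ⟨if h0 : 0 < m then Λ' ⟨0, h0⟩ - Λ ⟨0, h0⟩ else 0, 1, RingEquiv.refl ℂ, one_ne_zero,
      fun i => ?_⟩
    have h0 : 0 < m := lt_of_le_of_lt (Nat.zero_le _) i.2
    have h1 : i = ⟨0, h0⟩ := by
      apply Fin.ext
      have := i.2
      show (i : ℕ) = 0
      omega
    rw [dif_pos h0, h1]
    simp
  obtain ⟨i0, hi0⟩ : ∃ i0 : Fin m, i0 = ⟨0, by omega⟩ := ⟨_, rfl⟩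
  obtain ⟨i1, hi1⟩ : ∃ i1 : Fin m, i1 = ⟨1, by omega⟩ := ⟨_, rfl⟩
  have h01 : i0 ≠ i1 := by
    rw [hi0, hi1]
    intro e
    simp at e
  have hd : ∀ i j : Fin m, i ≠ j → Λ j - Λ i ≠ 0 := fun i j hij => sub_ne_zero.2 fun e => hij (hΛ e).symm
  have hd' : ∀ i j : Fin m, i ≠ j → Λ' j - Λ' i ≠ 0 :=
    fun i j hij => sub_ne_zero.2 fun e => hij (hΛ' e).symm
  obtain ⟨A, B, s, ⟨D, hs⟩, hR⟩ := hR
  choose p q hpq using hR
  have hB : B ≠ 0 := by
    rintro rfl
    apply hd i0 i1 h01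
    rw [hpq i1, hpq i0]
    ring
  -- quotients of differences are in `ℚ + ℚ s`
  have hquo : ∀ i j k : Fin m, i ≠ j → ∃ P Q : ℚ,
      (Λ k - Λ i) / (Λ j - Λ i) = (P : ℂ) + Q * s := by
    intro i j k hij
    have e1 : ∀ k, Λ k - Λ i = B * ((((p k - p i : ℚ) : ℝ) + ((q k - q i : ℚ) : ℝ) * s : ℝ) : ℂ) := by
      intro k
      rw [hpq k, hpq i]
      push_cast
      ring
    have h1 : (((p j - p i : ℚ) : ℝ) + ((q j - q i : ℚ) : ℝ) * s) ≠ 0 := by
      intro e
      apply hd i j hij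
      rw [e1 j, e]
      simp
    obtain ⟨P, Q, hPQ⟩ := quot hs (p k - p i) (q k - q i) (p j - p i) (q j - q i) h1
    refine ⟨P, Q, ?_⟩
    rw [e1 k, e1 j, mul_div_mul_left _ _ hB, ← Complex.ofReal_div, hPQ]
    push_cast
    rfl
  -- the triples
  have htri : ∀ i j k : Fin m, i ≠ j → i ≠ k → j ≠ k → ∀ P Q : ℚ,
      (Λ k - Λ i) / (Λ j - Λ i) = (P : ℂ) + Q * s →
        (Λ' k - Λ' i) / (Λ' j - Λ' i) = (P : ℂ) + Q * s ∨
          (Λ' k - Λ' i) / (Λ' j - Λ' i) = (P : ℂ) - Q * s := by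
    intro i j k hij hik hjk P Q e
    have hf : Function.Injective ![i, j, k] := by
      intro a b hab
      fin_cases a <;> fin_cases b <;> simp at hab ⊢ <;>
        first | exact hij hab | exact hij hab.symm | exact hik hab | exact hik hab.symm |
          exact hjk hab | exact hjk hab.symm
    exact h (Λ ∘ ![i, j, k]) (Λ' ∘ ![i, j, k]) (hΛ.comp hf) (hΛ'.comp hf) (sim_res hS _) s D P Q hs e
  have hx := fun k => hquo i0 i1 k h01
  choose P Q hPQ using hx
  by_cases hrat : ∃ r : ℚ, s = r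
  · -- everything is rational
    obtain ⟨r, hr⟩ := hrat
    refine norm_case h01 hΛ hΛ' (RingEquiv.refl ℂ) (fun k => ?_)
    show (Λ k - Λ i0) / (Λ i1 - Λ i0) = _
    by_cases hk0 : k = i0
    · rw [hk0]
      simp
    by_cases hk1 : k = i1
    · rw [hk1, div_self (hd i0 i1 h01), div_self (hd' i0 i1 h01)]
    have e1 : (Λ k - Λ i0) / (Λ i1 - Λ i0) = ((P k + Q k * r : ℚ) : ℂ) + ((0 : ℚ) : ℂ) * s := by
      rw [hPQ k, hr]
      push_cast
      ring
    rcases htri i0 i1 k h01 (Ne.symm hk0) (Ne.symm hk1) _ _ e1 with e2 | e2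
    · rw [e1, e2]
    · rw [e1, e2]
      push_cast
      ring
  · have hirr : ∀ r : ℚ, s ≠ r := fun r hr => hrat ⟨r, hr⟩
    have hs0 : (s : ℂ) ≠ 0 := by
      intro e
      have : s = ((0 : ℚ) : ℝ) := by
        push_cast
        exact_mod_cast e
      exact hirr 0 this
    -- the signs
    have hsg : ∀ k, ∃ e : ℤ, (e = 1 ∨ e = -1) ∧
        (Λ' k - Λ' i0) / (Λ' i1 - Λ' i0) = (P k : ℂ) + Q k * (e * s) := by
      intro k
      by_cases hk0 : k = i0
      · refine ⟨1, Or.inl rfl, ?_⟩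
        have h1 := hPQ k
        rw [hk0] at h1 ⊢
        rw [sub_self, zero_div] at h1 ⊢
        rw [h1]
        push_cast
        ring
      by_cases hk1 : k = i1
      · refine ⟨1, Or.inl rfl, ?_⟩
        have h1 := hPQ k
        rw [hk1] at h1 ⊢
        rw [div_self (hd i0 i1 h01)] at h1
        rw [div_self (hd' i0 i1 h01), h1]
        push_cast
        ring
      rcases htri i0 i1 k h01 (Ne.symm hk0) (Ne.symm hk1) _ _ (hPQ k) with e2 | e2
      · refine ⟨1, Or.inl rfl, ?_⟩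
        rw [e2]
        push_cast
        ring
      · refine ⟨-1, Or.inr rfl, ?_⟩
        rw [e2]
        push_cast
        ring
    choose e he hx' using hsg
    -- the signs agree
    have hagree : ∀ j k, Q j ≠ 0 → Q k ≠ 0 → e j = e k := by
      intro j k hj hk
      by_contra hne
      have hjc : (Q j : ℂ) ≠ 0 := by exact_mod_cast hj
      have hkc : (Q k : ℂ) ≠ 0 := by exact_mod_cast hk
      have hj0 : i0 ≠ j := by
        rintro rfl
        have h1 := hPQ i0
        rw [sub_self, zero_div] at h1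
        have h2 : (Q i0 : ℝ) * s = ((-P i0 : ℚ) : ℝ) := by
          have h3 : ((0 : ℝ) : ℂ) = (((P i0 : ℝ) + Q i0 * s : ℝ) : ℂ) := by
            push_cast
            exact h1
          have h4 := Complex.ofReal_injective h3
          push_cast
          linarith
        apply hirr (-P i0 / Q i0)
        have h5 : (Q i0 : ℝ) ≠ 0 := by exact_mod_cast hj
        push_cast at h2 ⊢
        field_simp
        linarith
      have hk0 : i0 ≠ k := by
        rintro rfl
        have h1 := hPQ i0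
        rw [sub_self, zero_div] at h1
        have h2 : (Q i0 : ℝ) * s = ((-P i0 : ℚ) : ℝ) := by
          have h3 : ((0 : ℝ) : ℂ) = (((P i0 : ℝ) + Q i0 * s : ℝ) : ℂ) := by
            push_cast
            exact h1
          have h4 := Complex.ofReal_injective h3
          push_cast
          linarith
        apply hirr (-P i0 / Q i0)
        have h5 : (Q i0 : ℝ) ≠ 0 := by exact_mod_cast hk
        push_cast at h2 ⊢
        field_simp
        linarith
      have hjk : j ≠ k := fun ejk => hne (by rw [ejk])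
      obtain ⟨U, V, hUV⟩ := hquo i0 j k hj0
      have hD : (s : ℂ) ^ 2 = (D : ℂ) := by
        have h1 : ((s ^ 2 : ℝ) : ℂ) = ((D : ℝ) : ℂ) := by rw [hs]
        push_cast at h1
        exact h1
      have hD0 : D ≠ 0 := by
        rintro rfl
        rw [Rat.cast_zero] at hD
        exact hs0 (pow_eq_zero_iff (two_ne_zero)|>.1 hD)
      have hX : (P k : ℂ) + Q k * s = (U + V * s) * (P j + Q j * s) := by
        rw [← hPQ k, ← hPQ j, ← hUV]
        field_simp [hd i0 i1 h01, hd i0 j hj0]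
      obtain ⟨a1, a2⟩ := indep hirr (P k - (U * P j + V * Q j * D)) (Q k - (U * Q j + V * P j)) (by
        push_cast
        rw [← hD]
        linear_combination hX)
      obtain ⟨δ, hδ, hX'⟩ : ∃ δ : ℤ, (δ = 1 ∨ δ = -1) ∧
          (P k : ℂ) + Q k * (e k * s) = (U + V * (δ * s)) * (P j + Q j * (e j * s)) := by
        have h5 : (Λ' k - Λ' i0) / (Λ' i1 - Λ' i0) =
            (Λ' k - Λ' i0) / (Λ' j - Λ' i0) * ((Λ' j - Λ' i0) / (Λ' i1 - Λ' i0)) := by
          rw [div_mul_div_cancel₀ (hd' i0 j hj0)]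
        rcases htri i0 j k hj0 hk0 hjk U V hUV with h6 | h6
        · refine ⟨1, Or.inl rfl, ?_⟩
          rw [← hx' k, ← hx' j, h5, h6]
          push_cast
          ring
        · refine ⟨-1, Or.inr rfl, ?_⟩
          rw [← hx' k, ← hx' j, h5, h6]
          push_cast
          ring
      obtain ⟨b1, b2⟩ := indep hirr (P k - (U * P j + δ * e j * V * Q j * D))
        (e k * Q k - (δ * V * P j + e j * U * Q j)) (by
        push_cast
        rw [← hD]
        linear_combination hX')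
      -- comparison
      have c1 : V * Q j * D * (1 - δ * e j) = 0 := by linear_combination b1 - a1
      have c2 : V = 0 ∨ ((δ : ℚ) * e j = 1) := by
        rcases mul_eq_zero.1 c1 with c | c
        · rcases mul_eq_zero.1 c with c | c
          · rcases mul_eq_zero.1 c with c | c
            · exact Or.inl c
            · exact absurd c hj
          · exact absurd c hD0
        · right
          linear_combination -c
      have c3 : (e k : ℚ) = e j := by
        have hk2 : Q k ≠ 0 := hk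
        have c4 : ((e k : ℚ) - e j) * Q k = 0 := by
          rcases c2 with c | c
          · rw [c] at a2 b2
            linear_combination b2 - e j * a2
          · have c5 : (δ : ℚ) = e j := by
              rcases hδ with d | d <;> rcases he j with d' | d'
              · rw [d, d']
              · exfalso
                rw [d, d'] at c
                norm_num at c
              · exfalso
                rw [d, d'] at c
                norm_num at c
              · rw [d, d']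
            rw [c5] at b2
            linear_combination b2 - e j * a2
        have := (mul_eq_zero.1 c4).resolve_right hk2
        linear_combination this
      exact hne (by exact_mod_cast c3.symm)
    -- the automorphism
    obtain ⟨ε, hε, hεQ⟩ : ∃ ε : ℤ, (ε = 1 ∨ ε = -1) ∧ ∀ k, Q k ≠ 0 → e k = ε := by
      by_cases hj : ∃ j, Q j ≠ 0
      · obtain ⟨j, hj⟩ := hj
        exact ⟨e j, he j, fun k hk => hagree k j hk hj⟩
      · push Not at hj
        exact ⟨1, Or.inl rfl, fun k hk => absurd (hj k) hk⟩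
    obtain ⟨φ, hφ⟩ : ∃ φ : ℂ ≃+* ℂ, φ (s : ℂ) = ε * s := by
      rcases hε with h1 | h1
      · refine ⟨RingEquiv.refl ℂ, ?_⟩
        rw [h1]
        simp
      · obtain ⟨σ, hσ⟩ := exists_conj hs hirr
        refine ⟨σ, ?_⟩
        rw [hσ, h1]
        push_cast
        ring
    refine norm_case h01 hΛ hΛ' φ (fun k => ?_)
    rw [hPQ k, hx' k, map_add, map_mul, map_ratCast, map_ratCast, hφ]
    by_cases hk : Q k = 0
    · rw [hk]
      simp
    · rw [hεQ k hk]

end Pool.Agent.K7.H77.DM2
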