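import Pool.Agent.K7.H80.MD.Stm

set_option autoImplicit false

/-!
# Job PROD of project MD
-/

open Finset

namespace Pool.Agent.K7.H77.MDPROD

open Pool.Agent.K7.H80.MD

open Classical in
theorem card_nondiag (n : ℕ) :
    (univ.filter fun e : Sym2 (Fin n) => ¬ e.IsDiag).card = n.choose 2 := by
  have h1 := Sym2.card_subtype_not_diag (α := Fin n)
  rw [Fintype.card_fin] at h1
  rw [← h1, Fintype.card_subtype]

open Classical in
theorem t : StProd := by
  intro n p f h
  obtain ⟨E, hE⟩ : ∃ E : Finset (Sym2 (Fin n)), E = univ.filter (fun e : Sym2 (Fin n) => ¬ e.IsDiag) :=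
    ⟨_, rfl⟩
  have hc : E.card = n.choose 2 := by rw [hE]; exact card_nondiag n
  rw [← hE, Finset.prod_add]
  have hsub : ∀ G : SimpleGraph (Fin n), G.edgeFinset ⊆ E := by
    intro G e he
    rw [hE, mem_filter]
    exact ⟨mem_univ _, G.not_isDiag_of_mem_edgeSet (SimpleGraph.mem_edgeFinset.1 he)⟩
  refine Finset.sum_bij' (fun G _ => G.edgeFinset)
    (fun t _ => SimpleGraph.fromEdgeSet (t : Set (Sym2 (Fin n)))) ?_ ?_ ?_ ?_ ?_
  · intro G _
    exact mem_powerset.2 (hsub G)
  · intro t _
    exact mem_univ _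
  · intro G _
    rw [SimpleGraph.coe_edgeFinset, SimpleGraph.fromEdgeSet_edgeSet]
  · intro t ht
    ext e
    have h0 : ∀ (G : SimpleGraph (Fin n)) (inst : Fintype G.edgeSet) (e : Sym2 (Fin n)),
        e ∈ @SimpleGraph.edgeFinset _ G inst ↔ e ∈ G.edgeSet :=
      fun G inst e => @SimpleGraph.mem_edgeFinset _ G e inst
    refine (h0 _ _ e).trans ?_
    rw [SimpleGraph.edgeSet_fromEdgeSet]
    constructor
    · intro he
      exact he.1
    · intro he
      refine ⟨he, ?_⟩
      have h1 := mem_powerset.1 ht he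
      rw [hE, mem_filter] at h1
      exact h1.2
  · intro G _
    have e1 : (E \ G.edgeFinset).card = n.choose 2 - G.edgeFinset.card := by
      rw [card_sdiff_of_subset (hsub G), hc]
    rw [prod_mul_distrib, prod_mul_distrib, prod_const, prod_const, e1]
    ring

end Pool.Agent.K7.H77.MDPROD
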