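import Pool.Agent.K7.H49.ML.Stm

set_option autoImplicit false

/-!
# Project ML, job CUBE: coplanar quadruples in the cube `{0,1}^d`
-/

open Finset

namespace Pool.Agent.K7.H77.MLCUBE

open Pool.Agent.K7.H49.ML

/-- the determinant of the rows `i`, `j`, `k` -/
def D {ι : Type} (u v w : ι → ℤ) (i j k : ι) : ℤ :=
  u i * (v j * w k - w j * v k) - v i * (u j * w k - w j * u k) + w i * (u j * v k - v j * u k)

theorem no_unit {ι : Type} {u v w : ι → ℤ} (_hu : ∀ i, u i = 0 ∨ u i = 1)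
    (hv : ∀ i, v i = 0 ∨ v i = 1) (hw : ∀ i, w i = 0 ∨ w i = 1) (hD : ∀ i j k, D u v w i j k = 0)
    (h1v : ∃ i, v i = 1) (h1w : ∃ i, w i = 1) (hvw : ∃ i, v i ≠ w i) (i : ι) :
    ¬ (u i = 1 ∧ v i = 0 ∧ w i = 0) := by
  rintro ⟨h1, h2, h3⟩
  obtain ⟨j, hj⟩ := hvw
  obtain ⟨k, hk⟩ := h1w
  obtain ⟨l, hl⟩ := h1v
  have e1 := hD i j k
  have e2 := hD i j l
  unfold D at e1 e2
  rcases hv j with a | a <;> rcases hw j with b | b <;> simp_all

theorem key {ι : Type} {u v w : ι → ℤ} (hu : ∀ i, u i = 0 ∨ u i = 1)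
    (hv : ∀ i, v i = 0 ∨ v i = 1) (hw : ∀ i, w i = 0 ∨ w i = 1) (hD : ∀ i j k, D u v w i j k = 0)
    (h1u : ∃ i, u i = 1) (h1v : ∃ i, v i = 1) (h1w : ∃ i, w i = 1)
    (huv : ∃ i, u i ≠ v i) (huw : ∃ i, u i ≠ w i) (hvw : ∃ i, v i ≠ w i) :
    (∀ i, u i = v i + w i) ∨ (∀ i, v i = u i + w i) ∨ (∀ i, w i = u i + v i) := by
  have n1 := no_unit hu hv hw hD h1v h1w hvw
  have n2 : ∀ i, ¬ (v i = 1 ∧ u i = 0 ∧ w i = 0) := by
    refine no_unit hv hu hw (fun i j k => ?_) h1u h1w huw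
    have := hD i j k
    unfold D at this ⊢
    linarith
  have n3 : ∀ i, ¬ (w i = 1 ∧ u i = 0 ∧ v i = 0) := by
    refine no_unit hw hu hv (fun i j k => ?_) h1u h1v huv
    have := hD i j k
    unfold D at this ⊢
    linarith
  have ty : ∀ i, (u i = 0 ∧ v i = 0 ∧ w i = 0) ∨ (u i = 1 ∧ v i = 1 ∧ w i = 0) ∨
      (u i = 1 ∧ v i = 0 ∧ w i = 1) ∨ (u i = 0 ∧ v i = 1 ∧ w i = 1) ∨
      (u i = 1 ∧ v i = 1 ∧ w i = 1) := by
    intro i
    have := n1 i
    have := n2 i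
    have := n3 i
    rcases hu i with a | a <;> rcases hv i with b | b <;> rcases hw i with c | c <;> simp_all
  obtain ⟨i1, hi1⟩ := huv
  obtain ⟨i2, hi2⟩ := huw
  obtain ⟨i3, hi3⟩ := hvw
  have t1 : (u i1 = 1 ∧ v i1 = 0 ∧ w i1 = 1) ∨ (u i1 = 0 ∧ v i1 = 1 ∧ w i1 = 1) := by
    rcases ty i1 with h | h | h | h | h <;> obtain ⟨a, b, c⟩ := h <;> simp_all
  have t2 : (u i2 = 1 ∧ v i2 = 1 ∧ w i2 = 0) ∨ (u i2 = 0 ∧ v i2 = 1 ∧ w i2 = 1) := by
    rcases ty i2 with h | h | h | h | h <;> obtain ⟨a, b, c⟩ := h <;> simp_all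
  have t3 : (u i3 = 1 ∧ v i3 = 1 ∧ w i3 = 0) ∨ (u i3 = 1 ∧ v i3 = 0 ∧ w i3 = 1) := by
    rcases ty i3 with h | h | h | h | h <;> obtain ⟨a, b, c⟩ := h <;> simp_all
  -- no row `111`
  have n4 : ∀ j, ¬ (u j = 1 ∧ v j = 1 ∧ w j = 1) := by
    rintro j ⟨a, b, c⟩
    have e12 := hD j i1 i2
    have e13 := hD j i1 i3
    have e23 := hD j i2 i3
    unfold D at e12 e13 e23
    rcases t1 with ⟨a1, b1, c1⟩ | ⟨a1, b1, c1⟩ <;> rcases t2 with ⟨a2, b2, c2⟩ | ⟨a2, b2, c2⟩ <;>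
      rcases t3 with ⟨a3, b3, c3⟩ | ⟨a3, b3, c3⟩ <;>
      rw [a, b, c] at e12 e13 e23 <;>
      rw [a1, b1, c1] at e12 e13 <;> rw [a2, b2, c2] at e12 e23 <;>
      rw [a3, b3, c3] at e13 e23 <;> omega
  by_contra hcon
  push Not at hcon
  obtain ⟨⟨j1, g1⟩, ⟨j2, g2⟩, ⟨j3, g3⟩⟩ := hcon
  have s1 : u j1 = 0 ∧ v j1 = 1 ∧ w j1 = 1 := by
    have := n4 j1
    rcases ty j1 with h | h | h | h | h <;> obtain ⟨a, b, c⟩ := h <;> simp_all
  have s2 : u j2 = 1 ∧ v j2 = 0 ∧ w j2 = 1 := by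
    have := n4 j2
    rcases ty j2 with h | h | h | h | h <;> obtain ⟨a, b, c⟩ := h <;> simp_all
  have s3 : u j3 = 1 ∧ v j3 = 1 ∧ w j3 = 0 := by
    have := n4 j3
    rcases ty j3 with h | h | h | h | h <;> obtain ⟨a, b, c⟩ := h <;> simp_all
  have e := hD j1 j2 j3
  unfold D at e
  obtain ⟨a1, b1, c1⟩ := s1
  obtain ⟨a2, b2, c2⟩ := s2
  obtain ⟨a3, b3, c3⟩ := s3
  rw [a1, b1, c1, a2, b2, c2, a3, b3, c3] at e
  norm_num at e

/-- in the cube, the difference `x - e` is `(1 - 2 e) (x - e)²` -/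
theorem diff_eq {x e : ℤ} (hx : x = 0 ∨ x = 1) (he : e = 0 ∨ e = 1) :
    x - e = (1 - 2 * e) * (x - e) ^ 2 := by
  rcases hx with rfl | rfl <;> rcases he with rfl | rfl <;> norm_num

theorem sq_or {x e : ℤ} (hx : x = 0 ∨ x = 1) (he : e = 0 ∨ e = 1) :
    (x - e) ^ 2 = 0 ∨ (x - e) ^ 2 = 1 := by
  rcases hx with rfl | rfl <;> rcases he with rfl | rfl <;> norm_num

theorem flat_cases {d : ℕ} {a b c e : Fin d → ℤ} (ha : ∀ i, a i = 0 ∨ a i = 1)
    (hb : ∀ i, b i = 0 ∨ b i = 1) (hc : ∀ i, c i = 0 ∨ c i = 1) (he : ∀ i, e i = 0 ∨ e i = 1)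
    (hf : Flat a b c e) (hab : a ≠ b) (hac : a ≠ c) (hbc : b ≠ c) :
    e = a ∨ e = b ∨ e = c ∨ e = b + c - a ∨ e = a + c - b ∨ e = a + b - c := by
  by_cases h1 : e = a
  · exact Or.inl h1
  by_cases h2 : e = b
  · exact Or.inr (Or.inl h2)
  by_cases h3 : e = c
  · exact Or.inr (Or.inr (Or.inl h3))
  right; right; right
  have exne : ∀ {x y : Fin d → ℤ}, x ≠ y → ∃ i, x i ≠ y i := fun h => Function.ne_iff.1 h
  have hk := key (u := fun i => (a i - e i) ^ 2) (v := fun i => (b i - e i) ^ 2)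
    (w := fun i => (c i - e i) ^ 2) (fun i => sq_or (ha i) (he i)) (fun i => sq_or (hb i) (he i))
    (fun i => sq_or (hc i) (he i)) ?_ ?_ ?_ ?_ ?_ ?_ ?_
  · rcases hk with hk | hk | hk
    · left
      funext i
      have h := hk i
      have e1 := diff_eq (ha i) (he i)
      have e2 := diff_eq (hb i) (he i)
      have e3 := diff_eq (hc i) (he i)
      rw [h] at e1
      have : a i - e i = (b i - e i) + (c i - e i) := by
        rw [e1, mul_add, ← e2, ← e3]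
      simp only [Pi.add_apply, Pi.sub_apply]
      linarith
    · right; left
      funext i
      have h := hk i
      have e1 := diff_eq (ha i) (he i)
      have e2 := diff_eq (hb i) (he i)
      have e3 := diff_eq (hc i) (he i)
      rw [h] at e2
      have : b i - e i = (a i - e i) + (c i - e i) := by
        rw [e2, mul_add, ← e1, ← e3]
      simp only [Pi.add_apply, Pi.sub_apply]
      linarith
    · right; right
      funext i
      have h := hk i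
      have e1 := diff_eq (ha i) (he i)
      have e2 := diff_eq (hb i) (he i)
      have e3 := diff_eq (hc i) (he i)
      rw [h] at e3
      have : c i - e i = (a i - e i) + (b i - e i) := by
        rw [e3, mul_add, ← e1, ← e2]
      simp only [Pi.add_apply, Pi.sub_apply]
      linarith
  · intro i j k
    have h := hf i j k
    unfold det3 at h
    rw [diff_eq (ha i) (he i), diff_eq (hb i) (he i), diff_eq (hc i) (he i),
      diff_eq (ha j) (he j), diff_eq (hb j) (he j), diff_eq (hc j) (he j),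
      diff_eq (ha k) (he k), diff_eq (hb k) (he k), diff_eq (hc k) (he k)] at h
    have hne : ∀ i, (1 - 2 * e i) ≠ 0 := by
      intro i
      rcases he i with h | h <;> rw [h] <;> norm_num
    have h' : (1 - 2 * e i) * (1 - 2 * e j) * (1 - 2 * e k) *
        D (fun i => (a i - e i) ^ 2) (fun i => (b i - e i) ^ 2) (fun i => (c i - e i) ^ 2) i j k
        = 0 := by
      rw [← h]
      unfold D
      ring
    rcases mul_eq_zero.1 h' with h'' | h''
    · exact absurd h'' (mul_ne_zero (mul_ne_zero (hne i) (hne j)) (hne k))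
    · exact h''
  · obtain ⟨i, hi⟩ := exne h1
    exact ⟨i, (sq_or (ha i) (he i)).resolve_left (pow_ne_zero 2 (sub_ne_zero.2 (Ne.symm hi)))⟩
  · obtain ⟨i, hi⟩ := exne h2
    exact ⟨i, (sq_or (hb i) (he i)).resolve_left (pow_ne_zero 2 (sub_ne_zero.2 (Ne.symm hi)))⟩
  · obtain ⟨i, hi⟩ := exne h3
    exact ⟨i, (sq_or (hc i) (he i)).resolve_left (pow_ne_zero 2 (sub_ne_zero.2 (Ne.symm hi)))⟩
  · obtain ⟨i, hi⟩ := exne hab
    refine ⟨i, fun h => hi ?_⟩
    have e1 := diff_eq (ha i) (he i)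
    have e2 := diff_eq (hb i) (he i)
    rw [h, ← e2] at e1
    linarith
  · obtain ⟨i, hi⟩ := exne hac
    refine ⟨i, fun h => hi ?_⟩
    have e1 := diff_eq (ha i) (he i)
    have e2 := diff_eq (hc i) (he i)
    rw [h, ← e2] at e1
    linarith
  · obtain ⟨i, hi⟩ := exne hbc
    refine ⟨i, fun h => hi ?_⟩
    have e1 := diff_eq (hb i) (he i)
    have e2 := diff_eq (hc i) (he i)
    rw [h, ← e2] at e1
    linarith

/-- the nine maps -/
def f {d : ℕ} : Fin 9 → (Fin d → ℤ) × (Fin d → ℤ) × (Fin d → ℤ) →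
    (Fin d → ℤ) × (Fin d → ℤ) × (Fin d → ℤ) × (Fin d → ℤ) :=
  ![fun t => (t.1, t.1, t.2.1, t.2.2), fun t => (t.1, t.2.1, t.1, t.2.2),
    fun t => (t.1, t.2.1, t.2.1, t.2.2), fun t => (t.1, t.2.1, t.2.2, t.1),
    fun t => (t.1, t.2.1, t.2.2, t.2.1), fun t => (t.1, t.2.1, t.2.2, t.2.2),
    fun t => (t.1, t.2.1, t.2.2, t.2.1 + t.2.2 - t.1),
    fun t => (t.1, t.2.1, t.2.2, t.1 + t.2.2 - t.2.1),
    fun t => (t.1, t.2.1, t.2.2, t.1 + t.2.1 - t.2.2)]

/-- JOB CUBE -/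
theorem stCube : StCube := by
  classical
  intro d A hA
  unfold quad
  have hsub : ((A ×ˢ A ×ˢ A ×ˢ A).filter fun q => Flat q.1 q.2.1 q.2.2.1 q.2.2.2) ⊆
      (Finset.univ : Finset (Fin 9)).biUnion (fun k => (A ×ˢ A ×ˢ A).image (f k)) := by
    rintro ⟨a, b, c, e⟩ hq
    simp only [mem_filter, mem_product] at hq
    obtain ⟨⟨ha, hb, hc, he⟩, hf⟩ := hq
    simp only [mem_biUnion, mem_univ, true_and, mem_image, mem_product]
    by_cases hab : a = b
    · exact ⟨0, (a, c, e), ⟨ha, hc, he⟩, by simp [f, hab]⟩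
    by_cases hac : a = c
    · exact ⟨1, (a, b, e), ⟨ha, hb, he⟩, by simp [f, hac]⟩
    by_cases hbc : b = c
    · exact ⟨2, (a, b, e), ⟨ha, hb, he⟩, by simp [f, hbc]⟩
    rcases flat_cases (hA a ha) (hA b hb) (hA c hc) (hA e he) hf hab hac hbc with
      h | h | h | h | h | h
    · exact ⟨3, (a, b, c), ⟨ha, hb, hc⟩, by simp [f, h]⟩
    · exact ⟨4, (a, b, c), ⟨ha, hb, hc⟩, by simp [f, h]⟩
    · exact ⟨5, (a, b, c), ⟨ha, hb, hc⟩, by simp [f, h]⟩
    · exact ⟨6, (a, b, c), ⟨ha, hb, hc⟩, by simp [f, h]⟩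
    · exact ⟨7, (a, b, c), ⟨ha, hb, hc⟩, by simp [f, h]⟩
    · exact ⟨8, (a, b, c), ⟨ha, hb, hc⟩, by simp [f, h]⟩
  have hcard : (A ×ˢ A ×ˢ A).card = A.card ^ 3 := by
    rw [card_product, card_product]
    ring
  calc _ ≤ ((Finset.univ : Finset (Fin 9)).biUnion (fun k => (A ×ˢ A ×ˢ A).image (f k))).card :=
        card_le_card hsub
    _ ≤ (Finset.univ : Finset (Fin 9)).card * A.card ^ 3 := by
        refine card_biUnion_le_card_mul _ _ _ (fun k _ => ?_)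
        rw [← hcard]
        exact card_image_le
    _ = 9 * A.card ^ 3 := by simp

end Pool.Agent.K7.H77.MLCUBE
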