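import Pool.Agent.K7.H81.RT.Stm

set_option autoImplicit false

/-!
# Project RT, job ROT: a rotation as an exchange of `e + 1` intervals
-/

namespace Pool.Agent.K7.H77.RTROT

open Pool.Agent.K7.H81.RT

/-- the cut points -/
noncomputable def A (e r : ℕ) (β : ℝ) (i : ℕ) : ℝ :=
  if i ≤ r then (i : ℝ) / e else if i = r + 1 then β else ((i : ℝ) - 1) / e

section

variable {e r : ℕ} {β : ℝ}

theorem A_low {i : ℕ} (h : i ≤ r) : A e r β i = (i : ℝ) / e := if_pos h

theorem A_mid : A e r β (r + 1) = β := by
  unfold A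
  rw [if_neg (by omega), if_pos rfl]

theorem A_high {i : ℕ} (h : r + 2 ≤ i) : A e r β i = ((i : ℝ) - 1) / e := by
  unfold A
  rw [if_neg (by omega), if_neg (by omega)]

theorem A_strictMono (he : 1 ≤ e) (h1 : (r : ℝ) / e < β) (h2 : β < ((r : ℝ) + 1) / e) :
    StrictMono (A e r β) := by
  have he' : (0 : ℝ) < e := by exact_mod_cast he
  apply strictMono_nat_of_lt_succ
  intro i
  rcases lt_trichotomy i r with h | h | h
  · rw [A_low h.le, A_low (by omega)]
    push_cast
    gcongr
    linarith
  · subst h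
    rw [A_low le_rfl, A_mid]
    exact h1
  · rcases Nat.lt_or_ge i (r + 2) with h' | h'
    · have : i = r + 1 := by omega
      subst this
      rw [A_mid, A_high (by omega)]
      push_cast
      rw [show ((r : ℝ) + 1 + 1 - 1) = r + 1 by ring]
      exact h2
    · rw [A_high h', A_high (by omega)]
      push_cast
      gcongr
      linarith

theorem A_zero : A e r β 0 = 0 := by
  rw [A_low (Nat.zero_le _)]
  simp

theorem A_last (he : 1 ≤ e) (hr : r + 1 ≤ e) : A e r β (e + 1) = 1 := by
  have he' : (0 : ℝ) < e := by exact_mod_cast he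
  rw [A_high (by omega)]
  push_cast
  rw [add_sub_cancel_right, div_self he'.ne']

end

theorem iter_eq {α : ℝ} (m : ℕ) (x : ℝ) (h0 : 0 ≤ x) (h1 : x < 1) :
    (fun x => Int.fract (x + α))^[m] x = Int.fract (x + m * α) := by
  induction m with
  | zero => simp [Int.fract_eq_self.2 ⟨h0, h1⟩]
  | succ m ih =>
    rw [Function.iterate_succ_apply', ih]
    push_cast
    rw [Int.fract_eq_fract]
    refine ⟨-⌊x + m * α⌋, ?_⟩
    have := Int.floor_add_fract (x + m * α)
    push_cast
    linarith

theorem stRot : StRot := by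
  intro e α he hα0 hα1 hirr
  have he' : (0 : ℝ) < e := by exact_mod_cast he
  set β : ℝ := 1 - α with hβ
  have hβ0 : 0 < β := by rw [hβ]; linarith
  have hβ1 : β < 1 := by rw [hβ]; linarith
  obtain ⟨r, hr⟩ : ∃ r : ℕ, r = ⌊(e : ℝ) * β⌋₊ := ⟨_, rfl⟩
  have hr1 : (r : ℝ) ≤ e * β := by
    rw [hr]
    exact Nat.floor_le (by positivity)
  have hr2 : (e : ℝ) * β < r + 1 := by
    rw [hr]
    exact Nat.lt_floor_add_one _
  have hre : r + 1 ≤ e := by
    have : (r : ℝ) < e := by nlinarith
    exact_mod_cast this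
  have h1 : (r : ℝ) / e < β := by
    rw [div_lt_iff₀ he']
    rcases hr1.lt_or_eq with h | h
    · linarith
    · exfalso
      apply hirr
      refine ⟨1 - (r : ℚ) / e, ?_⟩
      push_cast
      have : α = 1 - β := by rw [hβ]; ring
      rw [this, h]
      field_simp
  have h2 : β < ((r : ℝ) + 1) / e := by
    rw [lt_div_iff₀ he']
    linarith
  have hA : StrictMono (A e r β) := A_strictMono he h1 h2
  have hA0 : ∀ i, 0 ≤ A e r β i := fun i => by
    rw [← A_zero (e := e) (r := r) (β := β)]
    exact hA.monotone (Nat.zero_le i)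
  have hA1 : ∀ i ≤ e + 1, A e r β i ≤ 1 := fun i hi => by
    rw [← A_last (β := β) he hre]
    exact hA.monotone hi
  -- the two translations
  have hlow : ∀ j ≤ r, ∀ y, A e r β j ≤ y → y < A e r β (j + 1) → Int.fract (y + α) = y + α := by
    intro j hj y hy1 hy2
    have h3 : y < β :=
      calc y < A e r β (j + 1) := hy2
        _ ≤ A e r β (r + 1) := hA.monotone (by omega)
        _ = β := A_mid
    have h4 := (hA0 j).trans hy1
    rw [Int.fract_eq_self]
    constructor
    · linarith
    · rw [hβ] at h3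
      linarith
  have hhigh : ∀ j, r + 1 ≤ j → j ≤ e → ∀ y, A e r β j ≤ y → y < A e r β (j + 1) →
      Int.fract (y + α) = y + α - 1 := by
    intro j hj hje y hy1 hy2
    have h3 : β ≤ y :=
      calc β = A e r β (r + 1) := A_mid.symm
        _ ≤ A e r β j := hA.monotone hj
        _ ≤ y := hy1
    have h4 := hy2.trans_le (hA1 (j + 1) (by omega))
    rw [Int.fract_eq_iff]
    refine ⟨?_, ?_, 1, ?_⟩
    · rw [hβ] at h3
      linarith
    · linarith
    · push_cast
      ring
  let π : Equiv.Perm (Fin (e + 1)) := Equiv.addRight (⟨e - r, by omega⟩ : Fin (e + 1))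
  have hπ1 : ∀ j : Fin (e + 1), (j : ℕ) ≤ r → (π j : ℕ) = j + (e - r) := by
    intro j hj
    change ((j + ⟨e - r, by omega⟩ : Fin (e + 1)) : ℕ) = _
    rw [Fin.val_add]
    change ((j : ℕ) + (e - r)) % (e + 1) = _
    exact Nat.mod_eq_of_lt (by omega)
  have hπ2 : ∀ j : Fin (e + 1), r < (j : ℕ) → (π j : ℕ) = j - r - 1 := by
    intro j hj
    change ((j + ⟨e - r, by omega⟩ : Fin (e + 1)) : ℕ) = _
    rw [Fin.val_add]
    have hj2 := j.2
    have : (j : ℕ) + (e - r) = (j - r - 1) + (e + 1) := by omega
    change ((j : ℕ) + (e - r)) % (e + 1) = _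
    rw [this, Nat.add_mod_right]
    exact Nat.mod_eq_of_lt (by omega)
  refine ⟨fun i => A e r β i, π, ⟨?_, ?_, ?_, ?_, ?_, ?_, ?_, ?_⟩, ?_⟩
  · exact A_zero
  · exact A_last he hre
  · intro i j hij
    exact hA hij
  · intro j
    rcases Nat.lt_or_ge r j with h | h
    · exact ⟨α - 1, fun y hy1 hy2 => by
        rw [hhigh j h (by omega) y hy1 hy2]
        ring⟩
    · exact ⟨α, fun y hy1 hy2 => hlow j h y hy1 hy2⟩
  · refine ⟨fun x _ => ⟨Int.fract_nonneg _, Int.fract_lt_one _⟩, ?_, ?_⟩
    · intro x hx y hy hxy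
      obtain ⟨z, hz⟩ := Int.fract_eq_fract.1 hxy
      have h3 : x - y = z := by linarith
      have h4 : z = 0 := by
        have h5 : (z : ℝ) < 1 := by linarith [hx.2, hy.1]
        have h6 : (-1 : ℝ) < z := by linarith [hx.1, hy.2]
        have h7 : z < 1 := by exact_mod_cast h5
        have h8 : -1 < z := by exact_mod_cast h6
        omega
      rw [h4] at h3
      push_cast at h3
      linarith
    · intro y hy
      refine ⟨Int.fract (y - α), ⟨Int.fract_nonneg _, Int.fract_lt_one _⟩, ?_⟩
      change Int.fract (Int.fract (y - α) + α) = y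
      have h3 : Int.fract (Int.fract (y - α) + α) = Int.fract y := by
        rw [Int.fract_eq_fract]
        refine ⟨-⌊y - α⌋, ?_⟩
        have := Int.floor_add_fract (y - α)
        push_cast
        linarith
      rw [h3]
      exact Int.fract_eq_self.2 ⟨hy.1, hy.2⟩
  · intro j k hjk y z hy1 hy2 hz1 hz2
    have hjk' : (π j : ℕ) < (π k : ℕ) := hjk
    have hmono : (j : ℕ) < k → y < z := by
      intro h
      refine hy2.trans_le (le_trans ?_ hz1)
      exact hA.monotone (show (j : ℕ) + 1 ≤ k from h)
    have hz0 : 0 ≤ z := (hA0 _).trans hz1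
    have hy1' : y < 1 := hy2.trans_le (hA1 ((j : ℕ) + 1) (by omega))
    rcases Nat.lt_or_ge r j with hj | hj
    · rw [hhigh j hj (by omega) y hy1 hy2]
      rcases Nat.lt_or_ge r k with hk | hk
      · rw [hhigh k hk (by omega) z hz1 hz2]
        rw [hπ2 j hj, hπ2 k hk] at hjk'
        have := hmono (by omega)
        linarith
      · rw [hlow k hk z hz1 hz2]
        linarith
    · rw [hlow j hj y hy1 hy2]
      rcases Nat.lt_or_ge r k with hk | hk
      · exfalso
        rw [hπ1 j hj, hπ2 k hk] at hjk'
        have := k.2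
        omega
      · rw [hlow k hk z hz1 hz2]
        rw [hπ1 j hj, hπ1 k hk] at hjk'
        have := hmono (by omega)
        linarith
  · intro k hk1 hk2
    refine ⟨⟨min (k - 1) r, by omega⟩, ?_, ?_⟩
    · change min (k - 1) r < k
      omega
    · rw [hπ1 _ (by change min (k - 1) r ≤ r; omega)]
      change k ≤ min (k - 1) r + (e - r)
      omega
  · intro i k hi0 hi1 hk0 hk1 m n hmn
    -- representation of the interior cut points
    have hrep : ∀ i : Fin (e + 2), i ≠ 0 → i ≠ Fin.last (e + 1) → ∃ (s c : ℤ),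
        A e r β i = s / e - c * α ∧ ((c = 0 ∧ 1 ≤ s ∧ s < e ∧ ((i : ℤ) = s ∧ s ≤ r ∨
          (i : ℤ) = s + 1 ∧ (r : ℤ) < s)) ∨ (c = 1 ∧ s = e ∧ (i : ℤ) = r + 1)) := by
      intro i hi0 hi1
      have hi0' : (i : ℕ) ≠ 0 := fun h => hi0 (Fin.ext h)
      have hi1' : (i : ℕ) ≠ e + 1 := fun h => hi1 (Fin.ext h)
      have hi2 := i.2
      rcases lt_trichotomy (i : ℕ) (r + 1) with h | h | h
      · refine ⟨(i : ℕ), 0, ?_, Or.inl ⟨rfl, by omega, by omega, Or.inl ⟨rfl, by omega⟩⟩⟩
        rw [A_low (by omega)]
        push_cast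
        ring
      · refine ⟨e, 1, ?_, Or.inr ⟨rfl, rfl, by omega⟩⟩
        rw [h, A_mid, hβ]
        push_cast
        rw [div_self he'.ne']
        ring
      · refine ⟨((i : ℕ) : ℤ) - 1, 0, ?_, Or.inl ⟨rfl, by omega, by omega, Or.inr ⟨by omega, by omega⟩⟩⟩
        rw [A_high (by omega)]
        push_cast
        ring
    obtain ⟨s, c, hs, hs'⟩ := hrep i hi0 hi1
    obtain ⟨s', c', ht, ht'⟩ := hrep k hk0 hk1
    have hlt1 : ∀ i : Fin (e + 2), i ≠ Fin.last (e + 1) → A e r β i < 1 := by
      intro i hi1
      have hi1' : (i : ℕ) ≠ e + 1 := fun h => hi1 (Fin.ext h)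
      have hi2 := i.2
      rw [← A_last (β := β) he hre]
      exact hA (by omega)
    have hmn' : (fun x => Int.fract (x + α))^[m] (A e r β i) =
        (fun x => Int.fract (x + α))^[n] (A e r β k) := hmn
    rw [iter_eq m _ (hA0 _) (hlt1 i hi1), iter_eq n _ (hA0 _) (hlt1 k hk1)] at hmn'
    obtain ⟨z, hz⟩ := Int.fract_eq_fract.1 hmn'
    rw [hs, ht] at hz
    have hlin : (((m : ℤ) - c - n + c' : ℤ) : ℝ) * α = ((z * e - s + s' : ℤ) : ℝ) / e := by
      push_cast
      field_simp
      field_simp at hz
      linarith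
    have hcoef : (m : ℤ) - c - n + c' = 0 := by
      by_contra hne
      apply hirr
      refine ⟨((z * e - s + s' : ℤ) : ℚ) / e / (((m : ℤ) - c - n + c' : ℤ) : ℚ), ?_⟩
      have hne' : (((m : ℤ) - c - n + c' : ℤ) : ℝ) ≠ 0 := by exact_mod_cast hne
      have : α = ((z * e - s + s' : ℤ) : ℝ) / e / (((m : ℤ) - c - n + c' : ℤ) : ℝ) := by
        rw [eq_div_iff hne', ← hlin]
        ring
      rw [this]
      push_cast
      rfl
    have hzs : z * e = s - s' := by
      rw [hcoef] at hlin
      have h3 : ((z * e - s + s' : ℤ) : ℝ) = 0 := by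
        have := hlin.symm
        rw [div_eq_iff he'.ne'] at this
        push_cast at this ⊢
        linarith
      have h4 : z * e - s + s' = 0 := by exact_mod_cast h3
      linarith
    have he'' : (0 : ℤ) < e := by exact_mod_cast he
    have hz0 : c = c' → z = 0 := by
      intro hcc
      have h5 : |s - s'| < e := by
        rw [abs_lt]
        rcases hs' with h | h <;> rcases ht' with h' | h' <;> constructor <;> omega
      rw [← hzs, abs_mul, abs_of_pos he''] at h5
      have h6 : |z| < 1 := by
        by_contra hge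
        push Not at hge
        nlinarith
      exact Int.abs_lt_one_iff.1 h6
    have hcc : c = c' := by
      rcases hs' with h | h <;> rcases ht' with h' | h'
      · omega
      · exfalso
        have h5 : 0 < -z * e := by linarith [h.2.2.1, h'.2.1]
        have h6 : -z * e < e := by linarith [h.2.1, h'.2.1]
        have h7 : 0 < -z := by
          by_contra hle
          push Not at hle
          nlinarith
        nlinarith
      · exfalso
        have h5 : 0 < z * e := by linarith [h.2.1, h'.2.2.1]
        have h6 : z * e < e := by linarith [h.2.1, h'.2.1]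
        have h7 : 0 < z := by
          by_contra hle
          push Not at hle
          nlinarith
        nlinarith
      · omega
    have hz' := hz0 hcc
    rw [hz', zero_mul] at hzs
    constructor
    · apply Fin.ext
      rcases hs' with h | h <;> rcases ht' with h' | h' <;> omega
    · omega
  · intro j
    rcases Nat.lt_or_ge r j with h | h
    · refine ⟨((j : ℕ) : ℤ) - 1, ?_, ?_⟩
      · change (((((j : ℕ) : ℤ) - 1 : ℤ)) : ℝ) / e ≤ A e r β (j : ℕ)
        push_cast
        rcases Nat.lt_or_ge (j : ℕ) (r + 2) with h' | h'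
        · have : (j : ℕ) = r + 1 := by omega
          rw [this, A_mid]
          push_cast
          rw [add_sub_cancel_right]
          exact h1.le
        · rw [A_high h']
      · change A e r β ((j : ℕ) + 1) ≤ _
        rw [A_high (by omega)]
        push_cast
        apply le_of_eq
        ring
    · refine ⟨((j : ℕ) : ℤ), ?_, ?_⟩
      · change ((((j : ℕ) : ℤ)) : ℝ) / e ≤ A e r β (j : ℕ)
        rw [A_low h]
        push_cast
        exact le_rfl
      · change A e r β ((j : ℕ) + 1) ≤ _
        push_cast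
        rcases Nat.lt_or_ge (j : ℕ) r with h' | h'
        · rw [A_low (by omega)]
          push_cast
          exact le_rfl
        · have : (j : ℕ) = r := by omega
          rw [this, A_mid]
          exact h2.le

end Pool.Agent.K7.H77.RTROT
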