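import Pool.Agent.K7.H60.UP.Stm

set_option autoImplicit false

/-!
# Job EQ of project UP
-/

namespace Pool.Agent.K7.H77.UPEQ

open Pool.Agent.K7.H60.UP

theorem exp_re_im (t : ℝ) : Complex.exp (t * Complex.I) =
    (⟨Real.cos t, Real.sin t⟩ : ℂ) := by
  apply Complex.ext
  · simp [Complex.exp_ofReal_mul_I_re]
  · simp [Complex.exp_ofReal_mul_I_im]

theorem t : StEq := by
  intro t
  have h2 : Real.sqrt 2 ^ 2 = 2 := Real.sq_sqrt (by norm_num)
  constructor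
  · have hc : Real.sin t ^ 2 = 1 - Real.cos t ^ 2 := Real.sin_sq t
    rw [← Complex.normSq_eq_norm_sq, exp_re_im, Complex.normSq_apply, Real.cos_two_mul]
    obtain ⟨c, hcd⟩ : ∃ c, c = Real.cos t := ⟨_, rfl⟩
    obtain ⟨s, hsd⟩ : ∃ s, s = Real.sin t := ⟨_, rfl⟩
    rw [← hcd, ← hsd] at hc
    rw [← hcd, ← hsd]
    simp only [Complex.add_re, Complex.add_im, Complex.mul_re, Complex.mul_im, Complex.one_re,
      Complex.one_im, Complex.ofReal_re, Complex.ofReal_im, pow_two]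
    have e : (1 + (2 * Real.sqrt 2 / 3 * c - 0 * s) + (1 / 3 * (c * c - s * s) - 0 * (c * s + s * c))) *
        (1 + (2 * Real.sqrt 2 / 3 * c - 0 * s) + (1 / 3 * (c * c - s * s) - 0 * (c * s + s * c))) +
        (0 + (2 * Real.sqrt 2 / 3 * s + 0 * c) + (1 / 3 * (c * s + s * c) + 0 * (c * c - s * s))) *
        (0 + (2 * Real.sqrt 2 / 3 * s + 0 * c) + (1 / 3 * (c * s + s * c) + 0 * (c * c - s * s))) =
        1 + 4 * Real.sqrt 2 ^ 2 / 9 * (c ^ 2 + s ^ 2) + 1 / 9 * (c ^ 2 + s ^ 2) ^ 2 +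
          4 * Real.sqrt 2 / 3 * c + 2 / 3 * (c ^ 2 - s ^ 2) +
          4 * Real.sqrt 2 / 9 * c * (c ^ 2 + s ^ 2) := by ring
    rw [e, hc, h2]
    ring
  · have hc : Real.sin t ^ 2 = 1 - Real.cos t ^ 2 := Real.sin_sq t
    rw [← Complex.normSq_eq_norm_sq, exp_re_im, Complex.normSq_apply]
    obtain ⟨c, hcd⟩ : ∃ c, c = Real.cos t := ⟨_, rfl⟩
    obtain ⟨s, hsd⟩ : ∃ s, s = Real.sin t := ⟨_, rfl⟩
    rw [← hcd, ← hsd] at hc
    rw [← hcd, ← hsd]
    simp only [Complex.add_re, Complex.add_im, Complex.mul_re, Complex.mul_im, Complex.one_re,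
      Complex.one_im, Complex.ofReal_re, Complex.ofReal_im]
    nlinarith [hc]

end Pool.Agent.K7.H77.UPEQ
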